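import Mathlib
import Pool.Agent.H759R2.Kad.Props6

open scoped ComplexOrder InnerProductSpace ComplexConjugate
open Finset

noncomputable section

namespace H759R2.Kad

universe u v

namespace Pinf

variable {A : Type u} [CStarAlgebra A]

theorem eq_zero_of_star_mul {x : A} (h : star x * x = 0) : x = 0 :=
  (CStarRing.star_mul_self_eq_zero_iff x).1 h

/-- A system of equivalent orthogonal pieces. -/
structure Sys (w : ℕ → A) (f r : A) : Prop where
  fs : star f = f
  ff : f * f = f
  rel : ∀ m n, star (w m) * w n = if m = n then f else 0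
  wf : ∀ n, w n * f = w n
  rw' : ∀ n, r * w n = w n

theorem exists_sys (r : A) (hr : Prj r) (v : A) (h1 : star v * v = r) (h2 : r * v = v)
    (h3 : v * star v ≠ r) :
    ∃ (w : ℕ → A) (f : A), Sys w f r ∧ f ≠ 0 ∧ w 0 = f := by
  obtain ⟨hrs, hrr⟩ := hr
  have hvr : v * r = v := by
    have : v - v * r = 0 := by
      apply eq_zero_of_star_mul
      have e : star (v - v * r) * (v - v * r) =
          star v * v - (star v * v) * r - star r * (star v * v) + star r * (star v * v) * r := by
        rw [star_sub, star_mul]; noncomm_ring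
      rw [e, h1, hrs, hrr, hrr]; simp
    exact (sub_eq_zero.1 this).symm
  have hsr : star v * r = star v := by
    have := congrArg star h2
    rwa [star_mul, hrs] at this
  have hrsv : r * star v = star v := by
    have := congrArg star hvr
    rwa [star_mul, hrs] at this
  set f := r - v * star v with hf
  have hfs : star f = f := by
    rw [hf, star_sub, hrs, star_mul, star_star]
  have hfv : f * v = 0 := by
    rw [hf, sub_mul, h2, mul_assoc, h1, hvr, sub_self]
  have hfr : f * r = f := by
    rw [hf, sub_mul, hrr, mul_assoc, hsr]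
  have hrf : r * f = f := by
    rw [hf, mul_sub, hrr, ← mul_assoc, h2]
  have hff : f * f = f := by
    have : f * f = f * r - (f * v) * star v := by
      nth_rewrite 2 [hf]
      rw [mul_sub, mul_assoc]
    rw [this, hfv, hfr]; simp
  have hpow : ∀ n : ℕ, star (v ^ n) * v ^ n * r = r := by
    intro n
    induction n with
    | zero => simp
    | succ n ih =>
      have e : star (v ^ (n + 1)) * v ^ (n + 1) * r =
          star v * (star (v ^ n) * v ^ n * r) * v * r := by
        have e1 : v ^ (n + 1) = v ^ n * (r * v) := by rw [h2, pow_succ]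
        have e2 : star (v ^ (n + 1)) = star v * star (v ^ n) := by
          rw [pow_succ, star_mul]
        rw [e2, e1]; noncomm_ring
      rw [e, ih, hsr, h1, hrr]
  have hrpow : ∀ n : ℕ, r * v ^ (n + 1) = v ^ (n + 1) := by
    intro n
    rw [pow_succ', ← mul_assoc, h2]
  have hdiag : ∀ n : ℕ, star (v ^ n * f) * (v ^ n * f) = f := by
    intro n
    have e : star (v ^ n * f) * (v ^ n * f) = f * ((star (v ^ n) * v ^ n * r) * f) := by
      rw [star_mul, hfs]
      have : r * f = f := hrf
      calc f * star (v ^ n) * (v ^ n * f) = f * star (v ^ n) * (v ^ n * (r * f)) := by rw [hrf]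
        _ = _ := by noncomm_ring
    rw [e, hpow, hrf, hff]
  have hoff : ∀ m k : ℕ, star (v ^ m * f) * (v ^ (m + (k + 1)) * f) = 0 := by
    intro m k
    have e : star (v ^ m * f) * (v ^ (m + (k + 1)) * f) =
        f * ((star (v ^ m) * v ^ m * r) * v ^ (k + 1) * f) := by
      rw [star_mul, hfs, pow_add]
      calc f * star (v ^ m) * (v ^ m * v ^ (k + 1) * f)
          = f * star (v ^ m) * (v ^ m * (r * v ^ (k + 1)) * f) := by rw [hrpow]
        _ = _ := by noncomm_ring
    rw [e, hpow, hrpow, ← mul_assoc, pow_succ', ← mul_assoc, hfv]; simp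
  refine ⟨fun n => v ^ n * f, f, ⟨hfs, hff, ?_, ?_, ?_⟩, ?_, by simp⟩
  · intro m n
    rcases lt_trichotomy m n with h | h | h
    · obtain ⟨k, rfl⟩ := Nat.exists_eq_add_of_lt h
      rw [if_neg (by omega)]
      exact hoff m k
    · subst h
      rw [if_pos rfl]
      exact hdiag m
    · obtain ⟨k, rfl⟩ := Nat.exists_eq_add_of_lt h
      rw [if_neg (by omega)]
      have := congrArg star (hoff n k)
      rw [star_mul, star_star, star_zero] at this
      exact this
  · intro n
    show v ^ n * f * f = v ^ n * f
    rw [mul_assoc, hff]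
  · intro n
    show r * (v ^ n * f) = v ^ n * f
    cases n with
    | zero => simp [hrf]
    | succ n => rw [← mul_assoc, hrpow]
  · intro h0
    apply h3
    rw [hf] at h0
    exact (sub_eq_zero.1 h0).symm

variable {w : ℕ → A} {f r : A}

theorem Sys.fsw (S : Sys w f r) (n : ℕ) : f * star (w n) = star (w n) := by
  have := congrArg star (S.wf n)
  rwa [star_mul, S.fs] at this

theorem Sys.fne (S : Sys w f r) {m n : ℕ} (h : m ≠ n) : star (w m) * w n = 0 := by
  rw [S.rel, if_neg h]

theorem Sys.feq (S : Sys w f r) (n : ℕ) : star (w n) * w n = f := by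
  rw [S.rel, if_pos rfl]

/-- the pieces -/
def cc (w : ℕ → A) (σ : ℕ → ℕ) (n : ℕ) : A := w (σ n) * star (w n)

theorem cc_star (w : ℕ → A) (σ : ℕ → ℕ) (n : ℕ) : star (cc w σ n) = w n * star (w (σ n)) := by
  unfold cc
  rw [star_mul, star_star]

theorem Sys.wcc (S : Sys w f r) (i : ℕ) : w i * star (w i) * w i = w i := by
  rw [mul_assoc, S.feq, S.wf]

/-- The sum of the pieces. -/
theorem sum_pieces (h : W_seq.{u}) (hA : Wst A) (S : Sys w f r) (σ : ℕ → ℕ)
    (hσ : Function.Injective σ) :
    ∃ V : A, (∀ i, V * w i = w (σ i)) ∧ (∀ i, star V * w (σ i) = w i) ∧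
      ∀ a b, (∀ i, a * (w (σ i) * star (w i)) * b = 0) → a * V * b = 0 := by
  have k1 : ∀ i, star (cc w σ i) * cc w σ i = w i * star (w i) := by
    intro i
    rw [cc_star]
    unfold cc
    calc w i * star (w (σ i)) * (w (σ i) * star (w i))
        = w i * (star (w (σ i)) * w (σ i)) * star (w i) := by noncomm_ring
      _ = w i * star (w i) := by rw [S.feq, S.wf]
  have k2 : ∀ i, cc w σ i * star (cc w σ i) = w (σ i) * star (w (σ i)) := by
    intro i
    rw [cc_star]
    unfold cc
    calc w (σ i) * star (w i) * (w i * star (w (σ i)))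
        = w (σ i) * (star (w i) * w i) * star (w (σ i)) := by noncomm_ring
      _ = w (σ i) * star (w (σ i)) := by rw [S.feq, S.wf]
  obtain ⟨V, -, hV1, hV2, hV3⟩ := h A hA (cc w σ) (fun i => by
      show cc w σ i * star (cc w σ i) * cc w σ i = cc w σ i
      rw [k2]
      unfold cc
      rw [← mul_assoc, S.wcc]) (fun i j hij => by
      constructor
      · rw [cc_star]
        unfold cc
        calc w i * star (w (σ i)) * (w (σ j) * star (w j))
            = w i * (star (w (σ i)) * w (σ j)) * star (w j) := by noncomm_ring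
          _ = 0 := by rw [S.fne (fun h => hij (hσ h))]; simp
      · rw [cc_star]
        unfold cc
        calc w (σ i) * star (w i) * (w j * star (w (σ j)))
            = w (σ i) * (star (w i) * w j) * star (w (σ j)) := by noncomm_ring
          _ = 0 := by rw [S.fne hij]; simp)
  refine ⟨V, fun i => ?_, fun i => ?_, hV3⟩
  · have e := hV1 i
    rw [k1] at e
    calc V * w i = V * (w i * star (w i) * w i) := by rw [S.wcc]
      _ = (V * (w i * star (w i))) * w i := by noncomm_ring
      _ = cc w σ i * w i := by rw [e]
      _ = w (σ i) * (star (w i) * w i) := by unfold cc; noncomm_ring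
      _ = w (σ i) := by rw [S.feq, S.wf]
  · have e := congrArg star (hV2 i)
    rw [k2, star_mul, cc_star, star_mul, star_star] at e
    calc star V * w (σ i) = star V * (w (σ i) * star (w (σ i)) * w (σ i)) := by rw [S.wcc]
      _ = (star V * (w (σ i) * star (w (σ i)))) * w (σ i) := by noncomm_ring
      _ = (w i * star (w (σ i))) * w (σ i) := by rw [e]
      _ = w i * (star (w (σ i)) * w (σ i)) := by noncomm_ring
      _ = w i := by rw [S.feq, S.wf]

end Pinf

open Pinf in
theorem prove6_pinf (h : W_seq.{u}) : W_pinf.{u} := by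
  intro A _ hA r hr hnf
  unfold Fnt at hnf
  push Not at hnf
  obtain ⟨v, h1, h2, h3⟩ := hnf
  obtain ⟨w, f, S, hf0, hw0⟩ := exists_sys r hr v h1 h2 h3
  obtain ⟨D, hD1, hD2, hD3⟩ := sum_pieces h hA S id Function.injective_id
  simp only [id] at hD1 hD2 hD3
  have hDD : D * D = D := by
    have := hD3 (D - 1) 1 (fun i => by
      rw [mul_one, sub_mul, ← mul_assoc, hD1, one_mul, sub_self])
    rw [mul_one, sub_mul, one_mul] at this
    exact sub_eq_zero.1 this
  have hDsD : star D * D = D := by
    have := hD3 (star D - 1) 1 (fun i => by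
      rw [mul_one, sub_mul, ← mul_assoc, hD2, one_mul, sub_self])
    rw [mul_one, sub_mul, one_mul] at this
    exact sub_eq_zero.1 this
  have hDs : star D = D := by
    have := congrArg star hDsD
    rw [star_mul, star_star, hDsD] at this
    exact this.symm
  have hwD : ∀ i, star (w i) * D = star (w i) := by
    intro i
    have := congrArg star (hD1 i)
    rwa [star_mul, hDs] at this
  -- the two isometries
  have key : ∀ σ : ℕ → ℕ, Function.Injective σ → ∃ V : A, star V * V = D ∧ D * V = V ∧
      (∀ i, star V * w (σ i) = w i) ∧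
      ∀ a b, (∀ i, a * (w (σ i) * star (w i)) * b = 0) → a * V * b = 0 := by
    intro σ hσ
    obtain ⟨V, hV1, hV2, hV3⟩ := sum_pieces h hA S σ hσ
    have hVD : V * D = V := by
      have := hV3 1 (1 - D) (fun i => by
        rw [one_mul, mul_sub, mul_one, mul_assoc, hwD, sub_self])
      rw [one_mul, mul_sub, mul_one] at this
      exact (sub_eq_zero.1 this).symm
    refine ⟨V, ?_, ?_, hV2, hV3⟩
    · have := hD3 (star V * V - D) 1 (fun i => by
        rw [mul_one, sub_mul, ← mul_assoc, ← mul_assoc, mul_assoc (star V), hV1, hV2, hD1,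
          sub_self])
      rw [mul_one, sub_mul, hDD, mul_assoc, hVD] at this
      exact sub_eq_zero.1 this
    · have := hV3 (D - 1) 1 (fun i => by
        rw [mul_one, sub_mul, ← mul_assoc, hD1, one_mul, sub_self])
      rw [mul_one, sub_mul, one_mul] at this
      exact sub_eq_zero.1 this
  obtain ⟨a, ha1, ha2, ha3, ha4⟩ := key (fun n => 2 * n) (fun m n h => by simpa using h)
  obtain ⟨b, hb1, hb2, hb3, hb4⟩ := key (fun n => 2 * n + 1) (fun m n h => by simpa using h)
  refine ⟨D, a, b, ⟨hDs, hDD⟩, ?_, ?_, ha1, hb1, ?_, ha2, hb2⟩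
  · intro h0
    have := hD1 0
    rw [h0, zero_mul, hw0] at this
    exact hf0 this.symm
  · have := hD3 (r - 1) 1 (fun i => by
      rw [mul_one, sub_mul, ← mul_assoc, S.rw', one_mul, sub_self])
    rw [mul_one, sub_mul, one_mul] at this
    exact sub_eq_zero.1 this
  · -- orthogonality
    have g1 : ∀ m, star (w (2 * m)) * b = 0 := by
      intro m
      have := hb4 (star (w (2 * m))) 1 (fun i => by
        rw [mul_one, ← mul_assoc, S.fne (by omega), zero_mul])
      rwa [mul_one] at this
    have g2 : ∀ m, star b * w (2 * m) = 0 := by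
      intro m
      have := congrArg star (g1 m)
      rwa [star_mul, star_star, star_zero] at this
    have g3 := ha4 (star b) 1 (fun i => by
      rw [mul_one, ← mul_assoc, g2, zero_mul])
    rw [mul_one] at g3
    have := congrArg star g3
    rwa [star_mul, star_star, star_zero] at this

end H759R2.Kad
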